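import Pool.Agent.Q5.SG.Stm2
import Pool.Agent.Q20.EX.All

/-!
# Project SG, job XF: one Galois extension for all characters of a ray class group
-/

set_option autoImplicit false
set_option linter.unusedSectionVars false

namespace Pool.Agent.Q176.SG

open NumberField IsDedekindDomain Module
open Pool.Agent.Q92.AR (Dv prin Pr Ray RayD art nmD nu Cong Pos frob IsFrobenius Unramified Ram)
open Pool.Agent.Q53.EX (Pr_mono art_infl exists_gal finite_chars)
open Pool.Agent.Q125.AR (Ram_mono)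

/-- a Galois extension of `K` containing `M` and `M1` -/
theorem comb (K M M1 : Type) [Field K] [NumberField K] [Field M] [NumberField M] [Field M1]
    [NumberField M1] [Algebra K M] [Algebra K M1] :
    ∃ (M2 : Type) (_ : Field M2) (_ : NumberField M2) (_ : Algebra K M2) (_ : IsGalois K M2)
    (_ : Algebra M M2) (_ : Algebra M1 M2), IsScalarTower K M M2 ∧ IsScalarTower K M1 M2 := by
  let Ω := AlgebraicClosure K
  let i : M →ₐ[K] Ω := IsAlgClosed.lift
  let j : M1 →ₐ[K] Ω := IsAlgClosed.lift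
  let L : IntermediateField K Ω := i.fieldRange ⊔ j.fieldRange
  have hi : FiniteDimensional K i.fieldRange := by
    have h : FiniteDimensional K M := Module.Finite.of_restrictScalars_finite ℚ K M
    exact LinearEquiv.finiteDimensional (AlgEquiv.ofInjectiveField i).toLinearEquiv
  have hj : FiniteDimensional K j.fieldRange := by
    have h : FiniteDimensional K M1 := Module.Finite.of_restrictScalars_finite ℚ K M1
    exact LinearEquiv.finiteDimensional (AlgEquiv.ofInjectiveField j).toLinearEquiv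
  have hL : FiniteDimensional K L := IntermediateField.finiteDimensional_sup _ _
  have hNL : NumberField L := by
    have h2 : FiniteDimensional ℚ L := FiniteDimensional.trans ℚ K L
    have h3 : CharZero L := inferInstance
    exact ⟨⟩
  obtain ⟨M2, _, hN2, _, _, _, hG⟩ := exists_gal K L
  let i' : M →ₐ[K] L := i.codRestrict L.toSubalgebra
    (fun x => (le_sup_left : i.fieldRange ≤ L) ⟨x, rfl⟩)
  let j' : M1 →ₐ[K] L := j.codRestrict L.toSubalgebra
    (fun x => (le_sup_right : j.fieldRange ≤ L) ⟨x, rfl⟩)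
  let a : Algebra M M2 := ((algebraMap L M2).comp (i' : M →+* L)).toAlgebra
  let b : Algebra M1 M2 := ((algebraMap L M2).comp (j' : M1 →+* L)).toAlgebra
  refine ⟨M2, inferInstance, hN2, inferInstance, hG, a, b, ?_, ?_⟩
  · refine IsScalarTower.of_algebraMap_eq fun x => ?_
    change algebraMap K M2 x = algebraMap L M2 (i' (algebraMap K M x))
    rw [AlgHom.commutes, ← IsScalarTower.algebraMap_apply]
  · refine IsScalarTower.of_algebraMap_eq fun x => ?_
    change algebraMap K M2 x = algebraMap L M2 (j' (algebraMap K M1 x))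
    rw [AlgHom.commutes, ← IsScalarTower.algebraMap_apply]

/-- the claim for finitely many characters -/
theorem xf_fin (K K' : Type) [Field K] [NumberField K] [Field K'] [NumberField K']
    [Algebra K K'] (N : ℕ) (hN : N ≠ 0) (S : Finset (Dv K →+ Additive ℂˣ))
    (hS : ∀ χ ∈ S, ∀ x ∈ Ray K N, χ (prin x) = 0) :
    ∃ (M : Type) (_ : Field M) (_ : NumberField M) (_ : Algebra K M)
    (_ : IsGalois K M) (_ : Algebra K' M) (_ : IsScalarTower K K' M) (N' : ℕ), N' ≠ 0 ∧ N ∣ N' ∧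
    Ram K M N' ∧ ∀ χ ∈ S, ∃ ψ : (M ≃ₐ[K] M) →* ℂˣ, ∀ D ∈ Pr K N', art ψ D = χ D := by
  classical
  induction S using Finset.induction_on with
  | empty =>
    obtain ⟨M, _, _, _, _, _, hG⟩ := exists_gal K K'
    obtain ⟨N0, h0, hR⟩ := Pool.Agent.Q280.AR.rF K M
    refine ⟨M, inferInstance, inferInstance, inferInstance, hG, inferInstance, inferInstance,
      N * N0, mul_ne_zero hN h0, Dvd.intro _ rfl, Ram_mono (Dvd.intro_left _ rfl) hR, ?_⟩
    intro χ hχ
    simp at hχ
  | insert χ S hχ ih =>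
    obtain ⟨M, _, _, _, _, _, hT, N', hN', hd, hR, hM⟩ :=
      ih (fun χ' h => hS χ' (Finset.mem_insert_of_mem h))
    obtain ⟨M1, _, _, _, _, ψ1, N1, hN1, hd1, hR1, hψ1⟩ :=
      Pool.Agent.Q20.EX.all_EXI K N χ hN (hS χ (Finset.mem_insert_self _ _))
    obtain ⟨M2, _, _, _, _, _, _, hT1, hT2⟩ := comb K M M1
    obtain ⟨N0, h0, hR0⟩ := Pool.Agent.Q280.AR.rF K M2
    let a : Algebra K' M2 := ((algebraMap M M2).comp (algebraMap K' M)).toAlgebra
    have hT3 : IsScalarTower K K' M2 := by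
      refine IsScalarTower.of_algebraMap_eq fun x => ?_
      change algebraMap K M2 x = algebraMap M M2 (algebraMap K' M (algebraMap K K' x))
      rw [← IsScalarTower.algebraMap_apply K K' M, ← IsScalarTower.algebraMap_apply K M M2]
    have e0 : N0 ∣ N' * N1 * N0 := Dvd.intro_left _ rfl
    have e1 : N' ∣ N' * N1 * N0 := ⟨N1 * N0, by ring⟩
    have e2 : N1 ∣ N' * N1 * N0 := ⟨N' * N0, by ring⟩
    have hR2 : Ram K M2 (N' * N1 * N0) := Ram_mono e0 hR0
    refine ⟨M2, inferInstance, inferInstance, inferInstance, inferInstance, a, hT3, N' * N1 * N0,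
      mul_ne_zero (mul_ne_zero hN' hN1) h0, hd.trans e1, hR2, ?_⟩
    intro χ' hχ'
    rcases Finset.mem_insert.1 hχ' with rfl | h
    · refine ⟨ψ1.comp (AlgEquiv.restrictNormalHom (K₁ := M2) M1), fun D hD => ?_⟩
      rw [art_infl Pool.Agent.Q225.AR.fr K M1 M2 hR2 ψ1 _ (fun g => rfl) hD]
      exact hψ1 D (Pr_mono e2 hD)
    · obtain ⟨ψ, hψ⟩ := hM χ' h
      refine ⟨ψ.comp (AlgEquiv.restrictNormalHom (K₁ := M2) M), fun D hD => ?_⟩
      rw [art_infl Pool.Agent.Q225.AR.fr K M M2 hR2 ψ _ (fun g => rfl) hD]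
      exact hψ D (Pr_mono e1 hD)

/-- the restrictions of the characters which kill the ray are finite in number -/
theorem finite_restr (K : Type) [Field K] [NumberField K] (N : ℕ) (hN : N ≠ 0) :
    {f : Pr K N →+ Additive ℂˣ | ∃ χ : Dv K →+ Additive ℂˣ, (∀ x ∈ Ray K N, χ (prin x) = 0) ∧
      χ.comp (Pr K N).subtype = f}.Finite := by
  classical
  let H : AddSubgroup (Pr K N) := (RayD K N).addSubgroupOf (Pr K N)
  have hidx : H.index ≠ 0 := Pool.Agent.Q92.AR.all_Fin K N hN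
  have hfi : H.FiniteIndex := ⟨hidx⟩
  have hfin : Finite (Pr K N ⧸ H) := inferInstance
  have hfin2 : Finite (Multiplicative (Pr K N ⧸ H)) := hfin
  have hfin3 : Finite (Multiplicative (Pr K N ⧸ H) →* ℂˣ) := finite_chars _
  have hfin4 : Finite ((Pr K N ⧸ H) →+ Additive ℂˣ) :=
    Finite.of_equiv _ (AddMonoidHom.toMultiplicativeLeft (α := Pr K N ⧸ H) (β := ℂˣ)).symm
  refine (Set.finite_range fun g : (Pr K N ⧸ H) →+ Additive ℂˣ => g.comp (QuotientAddGroup.mk' H)).subset ?_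
  rintro f ⟨χ, hχ, rfl⟩
  have hker : RayD K N ≤ χ.ker := by
    unfold RayD
    rw [AddSubgroup.closure_le]
    rintro _ ⟨x, hx, rfl⟩
    exact hχ x hx
  refine ⟨QuotientAddGroup.lift H (χ.comp (Pr K N).subtype) ?_, ?_⟩
  · intro D hD
    exact hker (AddSubgroup.mem_addSubgroupOf.1 hD)
  · ext D
    rfl

/-- **JOB SG-XF** -/
theorem xf : Pool.Agent.Q5.SG.S_XF := by
  classical
  intro K K' _ _ _ _ _ N hN
  have hfin := finite_restr K N hN
  have hch : ∀ f : Pr K N →+ Additive ℂˣ, ∃ χ : Dv K →+ Additive ℂˣ,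
      (∀ x ∈ Ray K N, χ (prin x) = 0) ∧ ((∃ χ' : Dv K →+ Additive ℂˣ,
        (∀ x ∈ Ray K N, χ' (prin x) = 0) ∧ χ'.comp (Pr K N).subtype = f) →
        χ.comp (Pr K N).subtype = f) := by
    intro f
    by_cases h : ∃ χ' : Dv K →+ Additive ℂˣ,
        (∀ x ∈ Ray K N, χ' (prin x) = 0) ∧ χ'.comp (Pr K N).subtype = f
    · obtain ⟨χ', h1, h2⟩ := h
      exact ⟨χ', h1, fun _ => h2⟩
    · exact ⟨0, fun _ _ => rfl, fun h' => absurd h' h⟩
  choose c hc1 hc2 using hch
  obtain ⟨M, i1, i2, i3, i4, i5, i6, N', h1, h2, h3, h4⟩ := xf_fin K K' N hN (hfin.toFinset.image c) (by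
    intro χ hχ
    obtain ⟨f, -, rfl⟩ := Finset.mem_image.1 hχ
    exact hc1 f)
  refine ⟨M, i1, i2, i3, i4, i5, i6, N', h1, h2, h3, fun χ hχ => ?_⟩
  have hmem : χ.comp (Pr K N).subtype ∈ {f : Pr K N →+ Additive ℂˣ | ∃ χ : Dv K →+ Additive ℂˣ,
      (∀ x ∈ Ray K N, χ (prin x) = 0) ∧ χ.comp (Pr K N).subtype = f} := ⟨χ, hχ, rfl⟩
  obtain ⟨ψ, hψ⟩ := h4 (c (χ.comp (Pr K N).subtype))
    (Finset.mem_image_of_mem c (hfin.mem_toFinset.2 hmem))
  refine ⟨ψ, fun D hD => ?_⟩
  rw [hψ D hD]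
  have h5 := hc2 (χ.comp (Pr K N).subtype) ⟨χ, hχ, rfl⟩
  exact DFunLike.congr_fun h5 (⟨D, Pr_mono h2 hD⟩ : Pr K N)

end Pool.Agent.Q176.SG
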